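import Mathlib
import Pool.Agent.Q146.PC.One

/-!
# A uniform bound for the large rational points of plane curves generated by few integers

The uniformity conjecture asks for a bound for the number of rational points of all curves of genus
`g` over `ℚ`. We consider ALL plane curves `F = 0`, where `F ∈ ℤ[x, y]` has degree at most `d` in
each variable and coefficients of absolute value at most `X ^ E`, is irreducible over `ℚ`, and the
curve contains no curve of the form `t ↦ (x t ^ α, y t ^ β)` (`NoCoset`; a remark that is not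
formalised here: this holds for all absolutely irreducible `F` of genus at least one, because such
a curve is parametrised by rational functions).

A rational point `(x, y)` is generated by `N` integers up to `X` if `(1 : x : y) = (a : b : c)`
with integers `a`, `b`, `c` that are, up to sign, products of powers of the same `N` integers
between `1` and `X`. These `N` integers are not fixed, they may be different for different points;
there is no finitely generated group containing all the coordinates.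

For every `ε > 0` there are `K` and `δ > 0`, depending on `d`, `N`, `E` and `ε` only, such that for
all `X ≥ 2`

(1) each of these curves has at most `4 X ^ ε` rational points which are generated by `N` integers
up to `X` and have a height between `X ^ K` and `exp (X ^ δ)`;

(2) all the pairs (curve, such a point) lie in at most `X ^ ε` classes under the isomorphisms
`(x, y) ↦ (u x, v y)`, `u`, `v` rational;

(3) outside `X ^ ε` classes of curves there are no such points: all rational points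
of these curves which are generated by `N` integers up to `X` and have height at most `exp (X ^ δ)`
have height at most `X ^ K`.
-/

set_option autoImplicit false

namespace Pool.Agent.Results.MP_10e784_ag.GeneratedRationalPoints

open Pool.Agent.Q146.PC Pool.Agent.Y902.GN Polynomial

/-- `(1 : x : y) = (a : b : c)` with integers `a`, `b`, `c` of absolute value at most `M`, which
are, up to sign, products of powers of the same `N` integers between `1` and `X`. -/
def Generated (N X : ℕ) (M : ℝ) (x y : ℚ) : Prop :=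
  ∃ a b c : ℤ, x = b / a ∧ y = c / a ∧ |(a : ℝ)| ≤ M ∧ |(b : ℝ)| ≤ M ∧ |(c : ℝ)| ≤ M ∧
    ∃ (g : Fin N → ℕ) (e₀ e₁ e₂ : Fin N → ℕ), (∀ j, 1 ≤ g j ∧ g j ≤ X) ∧
      |a| = ∏ j, (g j : ℤ) ^ e₀ j ∧ |b| = ∏ j, (g j : ℤ) ^ e₁ j ∧ |c| = ∏ j, (g j : ℤ) ^ e₂ j

/-- The curves: `F` has degree at most `d` in each variable and coefficients of absolute value at
most `X ^ E` (`Bd`), is irreducible over the rationals, and the curve contains no coset of a
one-dimensional subtorus (`NoCoset`). -/
structure Curve (d E X : ℕ) (F : ℤ[X][X]) : Prop where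
  bd : Bd d ((X : ℤ) ^ E) F
  irr : Irreducible (toQ F)
  noc : NoCoset (toQ F)

/-- `(x, y)` is a generated rational point of the curve `F = 0`, of height more than `X ^ K`. -/
structure LargePoint (d N E K : ℕ) (δ : ℝ) (X : ℕ) (F : ℤ[X][X]) (x y : ℚ) : Prop where
  curve : Curve d E X F
  eqn : (toQ F).evalEval x y = 0
  gen : Generated N X (Real.exp ((X : ℝ) ^ δ)) x y
  large : (X : ℤ) ^ K < max (ht x) (ht y)

/-- `F (u x, v y)` is a multiple of `F' (x, y)`, `u, v ≠ 0` rational numbers. -/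
def ScaledCurve (F F' : ℤ[X][X]) : Prop :=
  ∃ u v κ : ℚ, u ≠ 0 ∧ v ≠ 0 ∧ κ ≠ 0 ∧ sc u v (toQ F) = C (C κ) * toQ F'

/-- `F (u T, v S)` is a multiple of `F' (T, S)` and `(x, y) = (u x', v y')`. -/
def ScaledPoint (F : ℤ[X][X]) (x y : ℚ) (F' : ℤ[X][X]) (x' y' : ℚ) : Prop :=
  ∃ u v κ : ℚ, u ≠ 0 ∧ v ≠ 0 ∧ κ ≠ 0 ∧ x = u * x' ∧ y = v * y' ∧
    sc u v (toQ F) = C (C κ) * toQ F'

theorem sgn (z : ℤ) (hz : z ≠ 0) : ∃ η : ℤ, |η| = 1 ∧ z = η * |z| := by
  rcases lt_or_gt_of_ne hz with h | h
  · exact ⟨-1, by simp, by rw [abs_of_neg h]; ring⟩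
  · exact ⟨1, by simp, by rw [abs_of_pos h]; ring⟩

theorem LargePoint.toLarge {d N E K : ℕ} {δ : ℝ} {X : ℕ} {F : ℤ[X][X]} {x y : ℚ}
    (h : LargePoint d N E K δ X F x y) : Large d N E K δ X F x y where
  bd := h.curve.bd
  irr := h.curve.irr
  noc := h.curve.noc
  eqn := h.eqn
  rep := by
    obtain ⟨a, b, c, hx, hy, ha, hb, hc, g, e₀, e₁, e₂, hg, h0, h1, h2⟩ := h.gen
    have hg0 : ∀ j, (g j : ℤ) ≠ 0 := fun j => by
      have := (hg j).1
      exact_mod_cast (by omega : g j ≠ 0)
    have hne : ∀ (z : ℤ) (e : Fin N → ℕ), |z| = ∏ j, (g j : ℤ) ^ e j → z ≠ 0 := by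
      intro z e hz h0
      rw [h0, abs_zero] at hz
      exact Finset.prod_ne_zero_iff.2 (fun j _ => pow_ne_zero _ (hg0 j)) hz.symm
    obtain ⟨η₀, hη₀, ha'⟩ := sgn a (hne a e₀ h0)
    obtain ⟨η₁, hη₁, hb'⟩ := sgn b (hne b e₁ h1)
    obtain ⟨η₂, hη₂, hc'⟩ := sgn c (hne c e₂ h2)
    rw [h0] at ha'
    rw [h1] at hb'
    rw [h2] at hc'
    refine ⟨![a, b, c], hx, hy, ⟨![η₀, η₁, η₂], g, ![e₀, e₁, e₂], ?_, hg, ?_⟩, ?_⟩
    · intro i
      fin_cases i
      · exact hη₀
      · exact hη₁
      · exact hη₂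
    · intro i
      fin_cases i
      · exact ha'
      · exact hb'
      · exact hc'
    · intro i
      fin_cases i
      · simpa using ha
      · simpa using hb
      · simpa using hc
  large := h.large

/-- **A uniform bound for the large rational points generated by few integers.** -/
theorem result : ∀ (d N E : ℕ) (ε : ℝ), 0 < ε → ∃ (K : ℕ) (δ : ℝ), 0 < δ ∧ ∀ X : ℕ, 2 ≤ X →
      -- (1) one curve
      (∀ (F : ℤ[X][X]) (T : Finset (ℚ × ℚ)), (∀ t ∈ T, LargePoint d N E K δ X F t.1 t.2) →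
        (T.card : ℝ) ≤ 4 * (X : ℝ) ^ ε) ∧
      -- (2) all pairs (curve, point)
      (∃ S : Finset (ℤ[X][X] × ℚ × ℚ), (S.card : ℝ) ≤ (X : ℝ) ^ ε ∧
        (∀ s ∈ S, LargePoint d N E K δ X s.1 s.2.1 s.2.2) ∧
        ∀ (F : ℤ[X][X]) (x y : ℚ), LargePoint d N E K δ X F x y →
          ∃ t ∈ S, ScaledPoint F x y t.1 t.2.1 t.2.2) ∧
      -- (3) the curves
      (∃ S : Finset ℤ[X][X], (S.card : ℝ) ≤ (X : ℝ) ^ ε ∧
        ∀ F : ℤ[X][X], Curve d E X F → (∀ G ∈ S, ¬ ScaledCurve F G) →
          ∀ x y : ℚ, (toQ F).evalEval x y = 0 → Generated N X (Real.exp ((X : ℝ) ^ δ)) x y →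
            max (ht x) (ht y) ≤ (X : ℤ) ^ K) := by
  classical
  intro d N E ε hε
  obtain ⟨K, δ, hδ, H⟩ := count d N E ε hε
  refine ⟨K, δ, hδ, fun X hX => ?_⟩
  have h1 : ∃ S : Finset (ℤ[X][X] × ℚ × ℚ), (S.card : ℝ) ≤ (X : ℝ) ^ ε ∧
        (∀ s ∈ S, LargePoint d N E K δ X s.1 s.2.1 s.2.2) ∧
        ∀ (F : ℤ[X][X]) (x y : ℚ), LargePoint d N E K δ X F x y →
          ∃ t ∈ S, ScaledPoint F x y t.1 t.2.1 t.2.2 := by
    obtain ⟨T, hT1, hT2, hT3⟩ := max_sep
      {s : ℤ[X][X] × ℚ × ℚ | LargePoint d N E K δ X s.1 s.2.1 s.2.2}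
      (fun s t => Scl s.1 s.2.1 s.2.2 t.1 t.2.1 t.2.2)
      (fun s => scl_refl _ _ _) (fun s t => scl_symm) ((X : ℝ) ^ ε)
      (fun T h1 h2 => H X hX T (fun t ht => (h1 t ht : LargePoint _ _ _ _ _ _ _ _ _).toLarge) h2)
    exact ⟨T, hT2, hT1, fun F x y h => hT3 (F, x, y) h⟩
  refine ⟨fun F T hT => one_curve (H X hX) F T fun t ht => (hT t ht).toLarge, h1, ?_⟩
  obtain ⟨S, hS1, hS2, hS3⟩ := h1
  refine ⟨S.image Prod.fst, ?_, fun F hF hFS x y e hg => ?_⟩
  · exact (by exact_mod_cast Finset.card_image_le :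
      ((S.image Prod.fst).card : ℝ) ≤ S.card).trans hS1
  · by_contra hcon
    push Not at hcon
    obtain ⟨t, ht, u, v, κ, hu, hv, hκ, -, -, h5⟩ := hS3 F x y ⟨hF, e, hg, hcon⟩
    exact hFS t.1 (Finset.mem_image_of_mem _ ht) ⟨u, v, κ, hu, hv, hκ, h5⟩

end Pool.Agent.Results.MP_10e784_ag.GeneratedRationalPoints
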