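import Pool.Agent.Q77.NP.Pow

/-!
# Superelliptic curves whose constant coefficient is near a power with a non-integral exponent: no rational points of small
height, on all small twists, for all exponents

Let `S` be a set of exponents containing `0`, and let `f_n (X) = a_D X ^ D + ... + a_0` be the polynomial whose coefficients
`a_l`, `l ∈ S`, are integers `n_l` in windows of length `y ^ W` around the real numbers `β l + w l * i (μ l) ^ e l`, where
`i = (i_1, ..., i_m)` runs through `{1, ..., x} ^ m`, the exponents `e l > 1` are not integers and two coefficients which depend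
on the same index have different exponents, and whose other coefficients are ARBITRARY fixed integers. The simplest case is
`S = {0}`, `m = 1`: the one-parameter family `f_n (X) = g (X) + n` with an arbitrary polynomial `g`, and `n` in the window around
`β + w i ^ e`, `1 ≤ i ≤ x`.

We show for almost all index vectors `i` and ALL polynomials `f_n` with coefficients in the windows: the curves
`c Y ^ k = f_n (X)` have no rational points `(X, Y)` with `X` of height at most `z ^ B`, for all exponents `2 ≤ k ≤ K`, all twists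
`c ≠ 0` with `|c| ≤ z ^ B` and all `z` from `y` to `x ^ κ`. If also `D ∈ S`, there is no rational point at infinity for `k ∣ D` either
(`c Y ^ k ≠ a_D`). The constants do not depend on the fixed coefficients, which may be much larger than `x`, nor on the shifts `β`.

So the superelliptic curves of all these families satisfy the uniform bound (with at most `gcd (k, D)` points, all at infinity),
for the points up to a power of the height of the curve if the fixed coefficients are not too large. All hyperelliptic curves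
(`k = 2`, genus `g ≥ 2` for `D = 2 g + 1` and `D = 2 g + 2`) are included.

The proof: were `c Y ^ k = f_n (X)` then a twist of the value at the tuple `n` of an affine form with integral coefficients would be
an `ℓ`-th power, `ℓ ∣ k` prime. The values of the form at the tuples near powers are equidistributed in the residue classes modulo the
primes `p = 1 mod ℓ` to the extent that the number of such `p ≤ z` for which the value is an `ℓ`-th power residue is at most `2 / 3` of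
all, for almost all `i`, for all forms of small height and all tuples in the windows (`Q56.WL`: products of Fejér kernels and van der
Corput's method).
-/

set_option autoImplicit false

namespace Pool.Agent.Results.MP_10e784_ag.NearPowers

open Finset hiding val
open Pool.Agent.Q56.WL (Setting ForAlmostAll)
open Pool.Agent.Q235.FD (Form val)

/-- The coefficient number `i`: the integer `n i` for `i ∈ S`, and the fixed integer `a i` otherwise. -/
def coeff {D : ℕ} (S : Finset (Fin (D + 1))) (a : Fin (D + 1) → ℤ) (n : S → ℕ) (i : Fin (D + 1)) : ℤ :=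
  if h : i ∈ S then (n ⟨i, h⟩ : ℤ) else a i

/-- The value `f_n (X)`. -/
def value {D : ℕ} (S : Finset (Fin (D + 1))) (a : Fin (D + 1) → ℤ) (n : S → ℕ) (X : ℚ) : ℚ :=
  ∑ i : Fin (D + 1), (coeff S a n i : ℚ) * X ^ (i : ℕ)

/-- No curve `c Y ^ k = f_n (X)` with `2 ≤ k ≤ K` and `0 < |c| ≤ z ^ B` has an affine rational point with `X` of height at most
`z ^ B`, and if the leading coefficient is one of the `n_l` then it is not of the form `c Y ^ k` either. -/
def NoPoints {D : ℕ} (S : Finset (Fin (D + 1))) (K B : ℕ) (a : Fin (D + 1) → ℤ) (z : ℕ) (n : S → ℕ) : Prop :=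
  ∀ k : ℕ, 2 ≤ k → k ≤ K → ∀ c : ℤ, c ≠ 0 → |c| ≤ (z : ℤ) ^ B →
    (∀ X : ℚ, |X.num| ≤ (z : ℤ) ^ B → (X.den : ℤ) ≤ (z : ℤ) ^ B → ∀ Y : ℚ, c * Y ^ k ≠ value S a n X) ∧
    (Fin.last D ∈ S → ∀ Y : ℚ, c * Y ^ k ≠ (coeff S a n (Fin.last D) : ℚ))

/-- the homogeneous value -/
def hom {D : ℕ} (S : Finset (Fin (D + 1))) (a : Fin (D + 1) → ℤ) (n : S → ℕ) (u v : ℤ) : ℤ :=
  ∑ i : Fin (D + 1), coeff S a n i * (u ^ (i : ℕ) * v ^ (D - i))

/-- the form and the twist of the parameters -/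
noncomputable def φ {D : ℕ} (S : Finset (Fin (D + 1))) (ℓ : ℕ) (a : Fin (D + 1) → ℤ) (P : Fin 3 → ℤ) : Form S :=
  ((∑ i : Fin (D + 1), if i ∈ S then 0 else a i * (P 0 ^ (i : ℕ) * P 1 ^ (D - i)),
    fun l => P 0 ^ (l.1 : ℕ) * P 1 ^ (D - l.1)), if P 1 = 0 then P 2 ^ (ℓ - 1) else (P 2 * P 1 ^ D) ^ (ℓ - 1))

lemma twist_zero {D : ℕ} (S : Finset (Fin (D + 1))) (ℓ : ℕ) (a : Fin (D + 1) → ℤ) (P : Fin 3 → ℤ) (h : P 1 = 0) :
    (φ S ℓ a P).2 = P 2 ^ (ℓ - 1) := by
  unfold φ
  exact if_pos h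

lemma twist_ne {D : ℕ} (S : Finset (Fin (D + 1))) (ℓ : ℕ) (a : Fin (D + 1) → ℤ) (P : Fin 3 → ℤ) (h : P 1 ≠ 0) :
    (φ S ℓ a P).2 = (P 2 * P 1 ^ D) ^ (ℓ - 1) := by
  unfold φ
  exact if_neg h

lemma val_eq {D : ℕ} (S : Finset (Fin (D + 1))) (ℓ : ℕ) (a : Fin (D + 1) → ℤ) (P : Fin 3 → ℤ) (n : S → ℕ) :
    val (φ S ℓ a P).1.1 (φ S ℓ a P).1.2 n = hom S a n (P 0) (P 1) := by
  classical
  unfold val φ hom
  have h1 : ∑ l : S, (P 0 ^ (l.1 : ℕ) * P 1 ^ (D - l.1)) * (n l : ℤ) =
      ∑ i : Fin (D + 1), if h : i ∈ S then (n ⟨i, h⟩ : ℤ) * (P 0 ^ (i : ℕ) * P 1 ^ (D - i)) else 0 := by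
    have h2 := Finset.sum_coe_sort S (fun i : Fin (D + 1) =>
      if h : i ∈ S then (n ⟨i, h⟩ : ℤ) * (P 0 ^ (i : ℕ) * P 1 ^ (D - i)) else 0)
    rw [← Finset.sum_subset (subset_univ S) (fun i _ hi => by rw [dif_neg hi]), ← h2]
    refine sum_congr rfl fun l _ => ?_
    rw [dif_pos l.2]
    ring
  rw [h1, ← sum_add_distrib]
  refine sum_congr rfl fun i _ => ?_
  unfold coeff
  by_cases h : i ∈ S
  · rw [if_pos h, dif_pos h, dif_pos h, zero_add]
  · rw [if_neg h, dif_neg h, dif_neg h, add_zero]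

lemma hom_eq {D : ℕ} (S : Finset (Fin (D + 1))) (a : Fin (D + 1) → ℤ) (n : S → ℕ) (X : ℚ) :
    (hom S a n X.num X.den : ℚ) = (X.den : ℚ) ^ D * value S a n X := by
  unfold hom value
  push_cast
  rw [mul_sum]
  refine sum_congr rfl fun i _ => ?_
  have hd : (X.den : ℚ) ≠ 0 := by exact_mod_cast X.den_nz
  have h1 : (X.num : ℚ) = X * X.den := (Rat.mul_den_eq_num X).symm
  have h2 : (X.den : ℚ) ^ D = (X.den : ℚ) ^ (i : ℕ) * (X.den : ℚ) ^ (D - i) := by
    rw [← pow_add]
    congr 1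
    have := i.is_le
    omega
  rw [h1, h2, mul_pow]
  ring

lemma hom_last {D : ℕ} (S : Finset (Fin (D + 1))) (a : Fin (D + 1) → ℤ) (n : S → ℕ) :
    hom S a n 1 0 = coeff S a n (Fin.last D) := by
  unfold hom
  rw [sum_eq_single (Fin.last D)]
  · simp
  · intro i _ hi
    have h1 : (i : ℕ) < D := by
      have h2 := i.is_le
      rcases Nat.lt_or_ge (i : ℕ) D with h | h
      · exact h
      · exact absurd (Fin.ext (by rw [Fin.val_last]; omega)) hi
    rw [zero_pow (by omega), mul_zero, mul_zero]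
  · intro h
    exact absurd (mem_univ _) h

/-- a rational number whose power is an integer -/
lemma exists_int {q : ℚ} {ℓ : ℕ} (hℓ : ℓ ≠ 0) {M : ℤ} (h : q ^ ℓ = M) : ∃ k : ℤ, M = k ^ ℓ := by
  have h1 : (q ^ ℓ).den = 1 := by rw [h]; exact Rat.den_intCast M
  rw [Rat.den_pow] at h1
  have h2 : q.den = 1 := (Nat.pow_eq_one.1 h1).resolve_right hℓ
  refine ⟨q.num, ?_⟩
  have h3 : (q.num : ℚ) = q := Rat.coe_int_num_of_den_eq_one h2
  have h4 : ((q.num ^ ℓ : ℤ) : ℚ) = M := by
    push_cast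
    rw [h3, h]
  exact_mod_cast h4.symm

/-- the conclusion for all primes `ℓ ≤ K` -/
def NoPow {D : ℕ} (S : Finset (Fin (D + 1))) (K B : ℕ) (a : Fin (D + 1) → ℤ) (z : ℕ) (n : S → ℕ) : Prop :=
  ∀ ℓ : ℕ, ℓ.Prime → ℓ ≤ K → ∀ P : Fin 3 → ℤ, (∀ i, |P i| ≤ (z : ℤ) ^ B) →
    (P 2 ≠ 0 ∧ (P 1 ≠ 0 ∨ (Fin.last D ∈ S ∧ P 0 = 1 ∧ P 1 = 0))) →
    ∀ k : ℤ, (φ S ℓ a P).2 * val (φ S ℓ a P).1.1 (φ S ℓ a P).1.2 n ≠ k ^ ℓ

lemma one_prime {D : ℕ} (S : Finset (Fin (D + 1))) (h0 : 0 ∈ S) {m : ℕ} {e w : S → ℝ} {μ : S → Fin m} (hs : Setting e w μ)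
    (A W B : ℕ) {ℓ : ℕ} (hℓ : ℓ.Prime) :
    ForAlmostAll e w μ A W (fun (a : Fin (D + 1) → ℤ) z n => ∀ P : Fin 3 → ℤ, (∀ i, |P i| ≤ (z : ℤ) ^ B) →
      (P 2 ≠ 0 ∧ (P 1 ≠ 0 ∨ (Fin.last D ∈ S ∧ P 0 = 1 ∧ P 1 = 0))) →
      ∀ k : ℤ, (φ S ℓ a P).2 * val (φ S ℓ a P).1.1 (φ S ℓ a P).1.2 n ≠ k ^ ℓ) := by
  refine Pool.Agent.Q77.NP.powers hℓ hs A W B (Fin 3) (φ S ℓ)
    (fun _ P => P 2 ≠ 0 ∧ (P 1 ≠ 0 ∨ (Fin.last D ∈ S ∧ P 0 = 1 ∧ P 1 = 0))) ?_
  rintro a P ⟨h2, h⟩
  rcases h with h | ⟨hD, hu, hv⟩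
  · refine ⟨1, 2, h, h2, fun p hp hh => ?_⟩
    have hp' := Nat.prime_iff_prime_int.1 hp
    rcases hh with hh | hh
    · left
      have h3 := hh ⟨0, h0⟩
      unfold φ at h3
      simp only [Fin.val_zero, pow_zero, Nat.sub_zero, one_mul] at h3
      exact hp'.dvd_of_dvd_pow h3
    · have h3 : (p : ℤ) ∣ (P 2 * P 1 ^ D) ^ (ℓ - 1) := by
        unfold φ at hh
        simp only [if_neg h] at hh
        exact hh
      rcases hp'.dvd_or_dvd (hp'.dvd_of_dvd_pow h3) with h4 | h4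
      · exact Or.inr h4
      · exact Or.inl (hp'.dvd_of_dvd_pow h4)
  · refine ⟨0, 2, by rw [hu]; exact one_ne_zero, h2, fun p hp hh => ?_⟩
    have hp' := Nat.prime_iff_prime_int.1 hp
    rcases hh with hh | hh
    · left
      have h3 := hh ⟨Fin.last D, hD⟩
      unfold φ at h3
      simp only [Fin.val_last, Nat.sub_self, pow_zero, mul_one] at h3
      exact hp'.dvd_of_dvd_pow h3
    · right
      have h3 : (p : ℤ) ∣ P 2 ^ (ℓ - 1) := by
        unfold φ at hh
        simp only [if_pos hv] at hh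
        exact hh
      exact hp'.dvd_of_dvd_pow h3

lemma all_primes {D : ℕ} (S : Finset (Fin (D + 1))) (h0 : 0 ∈ S) {m : ℕ} {e w : S → ℝ} {μ : S → Fin m} (hs : Setting e w μ)
    (W B K : ℕ) : ∀ A : ℕ, ForAlmostAll e w μ A W (NoPow (D := D) S K B) := by
  induction K with
  | zero =>
    intro A
    refine (one_prime S h0 hs A W B Nat.prime_two).mono 0 ?_
    intro a z n _ _ ℓ hℓ h
    exact absurd hℓ.pos (by omega)
  | succ K ih =>
    intro A
    by_cases hK : (K + 1).Prime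
    · refine (ih (A + 1)).and (one_prime S h0 hs (A + 1) W B hK) ?_
      intro a z n h1 h2 ℓ hℓ hle
      rcases Nat.lt_or_ge K ℓ with h3 | h3
      · have h4 : ℓ = K + 1 := by omega
        subst h4
        exact h2
      · exact h1 ℓ hℓ h3
    · refine (ih A).mono 0 ?_
      intro a z n _ h1 ℓ hℓ hle
      have h4 : ℓ ≠ K + 1 := fun h => hK (h ▸ hℓ)
      exact h1 ℓ hℓ (by omega)

/-- **Superelliptic curves near powers.** For all `S` containing `0`, exponents `e`, coefficients `w` and maps `μ` as in `Setting`, and all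
`A`, `W`, `B`, `K`: the property `NoPoints` holds for almost all index vectors and ALL tuples `n` in the windows of length `y ^ W`
(`ForAlmostAll`), uniformly in the fixed coefficients `a` and the shifts `β`. -/
theorem result (D : ℕ) (S : Finset (Fin (D + 1))) (h0 : 0 ∈ S) (m : ℕ) (e w : S → ℝ) (μ : S → Fin m) (hs : Setting e w μ)
    (A W B K : ℕ) : ForAlmostAll e w μ A W (NoPoints (D := D) S K B) := by
  refine (all_primes S h0 hs W B K A).mono 1 ?_
  intro a z n hz h k hk hkK c hc hcz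
  obtain ⟨ℓ, hℓ, hℓk⟩ := Nat.exists_prime_and_dvd (show k ≠ 1 by omega)
  have hℓK : ℓ ≤ K := (Nat.le_of_dvd (by omega) hℓk).trans hkK
  obtain ⟨j, hj⟩ := hℓk
  have hz1 : (1 : ℤ) ≤ (z : ℤ) ^ B := one_le_pow₀ (by exact_mod_cast hz)
  have hℓ1 : ℓ - 1 + 1 = ℓ := Nat.sub_add_cancel hℓ.one_lt.le
  refine ⟨fun X hX1 hX2 Y hY => ?_, fun hD Y hY => ?_⟩
  · have hden : (X.den : ℤ) ≠ 0 := by exact_mod_cast X.den_nz
    have h1 := h ℓ hℓ hℓK ![X.num, X.den, c] (by
      intro i
      fin_cases i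
      · exact hX1
      · show |(X.den : ℤ)| ≤ _
        rw [abs_of_nonneg (by positivity)]
        exact hX2
      · exact hcz) ⟨hc, Or.inl hden⟩
    obtain ⟨k', hk'⟩ := exists_int (q := c * X.den ^ D * Y ^ j) hℓ.ne_zero
      (M := (c * (X.den : ℤ) ^ D) ^ (ℓ - 1) * hom S a n X.num X.den) (by
        push_cast
        rw [hom_eq, ← hY, hj, mul_pow, ← hℓ1, pow_succ (c * (X.den : ℚ) ^ D), hℓ1, ← pow_mul, mul_comm j ℓ]
        ring)
    refine h1 k' ?_
    rw [val_eq, twist_ne S ℓ a _ hden]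
    exact hk'
  · have h1 := h ℓ hℓ hℓK ![1, 0, c] (by
      intro i
      fin_cases i
      · show |(1 : ℤ)| ≤ _
        rw [abs_one]
        exact hz1
      · show |(0 : ℤ)| ≤ _
        rw [abs_zero]
        linarith
      · exact hcz) ⟨hc, Or.inr ⟨hD, rfl, rfl⟩⟩
    obtain ⟨k', hk'⟩ := exists_int (q := c * Y ^ j) hℓ.ne_zero
      (M := c ^ (ℓ - 1) * hom S a n 1 0) (by
        rw [hom_last]
        push_cast
        rw [← hY, hj, mul_pow, ← hℓ1, pow_succ (c : ℚ), hℓ1, ← pow_mul, mul_comm j ℓ]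
        ring)
    refine h1 k' ?_
    rw [val_eq, twist_zero S ℓ a _ rfl]
    exact hk'

end Pool.Agent.Results.MP_10e784_ag.NearPowers
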