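import Pool.Agent.Q13.UF.Comm
import Pool.Agent.Q13.UF.Int

/-!
MP_10e784_ag, Q1: a uniform bound for the number of rational points of nonsingular plane curves of
degree at least four in the orbits of commuting polynomial maps.
-/

set_option autoImplicit false

namespace Pool.Agent.Results.MP_10e784_ag.UniformNonlinearOrbits

open MvPolynomial Pool.Agent.Q13.UN Pool.Agent.Q13.UF

/-- The projective plane curve `F = 0` is nonsingular: the partial derivatives of the form `F` have
no common zero except `0` over the algebraic closure. -/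
def Nonsingular {K : Type} [Field K] (F : MvPolynomial (Fin 3) K) : Prop :=
  ∀ z : Fin 3 → AlgebraicClosure K, (∀ k, aeval z (pderiv k F) = 0) → z = 0

theorem result (D M d s : ℕ) (hD : 4 ≤ D) :
    ∃ N : ℕ, ∀ (K : Type) [Field K] [CharZero K] (F : MvPolynomial (Fin 3) K),
      F.IsHomogeneous D → Nonsingular F →
      ∀ (T : Fin s → Fin M → MvPolynomial (Fin M) K) (ψ : Fin 3 → MvPolynomial (Fin M) K)
        (u : (Fin s → ℕ) → Fin M → K),
        (∀ a i j, (T a i).degreeOf j ≤ d) → (∀ i j, (ψ i).degreeOf j ≤ d) →
        (∀ n a i, u (n + Pi.single a 1) i = eval (u n) (T a i)) →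
        (∀ n, (∃ j, eval (u n) (ψ j) ≠ 0) ∧ eval (fun j => eval (u n) (ψ j)) F = 0) →
        ∃ S : Finset (Fin 3 → K), S.card ≤ N ∧ (∀ x ∈ S, x ≠ 0) ∧
          ∀ n, ∃ x ∈ S, ∀ i j, eval (u n) (ψ i) * x j = eval (u n) (ψ j) * x i := by
  classical
  obtain ⟨t, m0, p, hp, h1⟩ := plane_all hD M d
  refine ⟨(m0 + p) ^ s, fun K _ _ F hF hns T ψ u hT hψ hu hcur => ?_⟩
  obtain ⟨f, hf⟩ : ∃ f : K →+* AlgebraicClosure K, f = algebraMap K (AlgebraicClosure K) :=
    ⟨_, rfl⟩
  have hfi : Function.Injective f := f.injective
  have hns' : Nonsing (map f F) := nonsing_of fun z hz => hns z fun k => by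
    have h2 := hz k
    rw [pderiv_map, eval_map, hf] at h2
    exact h2
  have hal : ∀ (a : Fin s) (v : Fin M → K) (m : ℕ),
      orb (k := AlgebraicClosure K) (fun i => map f (T a i)) (fun i => f (v i)) m =
        fun i => f (orb (T a) v m i) := by
    intro a v m
    induction m with
    | zero => rfl
    | succ m ih =>
      funext i
      change aeval (orb (k := AlgebraicClosure K) (fun i => map f (T a i)) (fun i => f (v i)) m)
        (map f (T a i)) = f (aeval (orb (T a) v m) (T a i))
      rw [ih, MvPolynomial.aeval_eq_eval, MvPolynomial.aeval_eq_eval]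
      exact eval_map' f _ _
  have hal2 : ∀ (a : Fin s) (v : Fin M → K) (m : ℕ) (j : Fin 3),
      along (k := AlgebraicClosure K) (N := 2) (fun i => map f (T a i)) (fun j => map f (ψ j))
        (fun i => f (v i)) m j = f (along (N := 2) (T a) ψ v m j) := by
    intro a v m j
    change aeval (orb (k := AlgebraicClosure K) (fun i => map f (T a i)) (fun i => f (v i)) m)
      (map f (ψ j)) = f (aeval (orb (T a) v m) (ψ j))
    rw [hal, MvPolynomial.aeval_eq_eval, MvPolynomial.aeval_eq_eval]
    exact eval_map' f _ _
  have hu' : ∀ n a, u (n + Pi.single a 1) = fun i => aeval (u n) (T a i) := fun n a =>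
    funext fun i => by rw [hu, MvPolynomial.aeval_eq_eval]
  have hline : ∀ (a : Fin s) (n : Fin s → ℕ) (b c : ℕ), m0 ≤ b → m0 ≤ c → b ≡ c [MOD p] → ∀ i j,
      along (N := 2) (T a) ψ (u (Function.update n a 0)) b i *
        along (N := 2) (T a) ψ (u (Function.update n a 0)) c j =
      along (N := 2) (T a) ψ (u (Function.update n a 0)) b j *
        along (N := 2) (T a) ψ (u (Function.update n a 0)) c i := by
    intro a n b c hb hc hbc i j
    have h2 := h1 (AlgebraicClosure K) (map f F) (fun i => map f (T a i)) (fun j => map f (ψ j))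
      (fun i => f (u (Function.update n a 0) i)) (hF.map f) hns'
      (fun i j => (degreeOf_map' _ _ _).trans (hT a i j))
      (fun i j => (degreeOf_map' _ _ _).trans (hψ i j)) (fun m _ => by
        have h3 : ∀ j : Fin 3, along (N := 2) (T a) ψ (u (Function.update n a 0)) m j =
            eval (u (Function.update n a m)) (ψ j) := by
          intro j
          rw [line_orb hu' n a m, ← MvPolynomial.aeval_eq_eval]
          rfl
        obtain ⟨⟨j, hj⟩, h4⟩ := hcur (Function.update n a m)
        refine ⟨fun h5 => hj (hfi ?_), ?_⟩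
        · rw [← h3, ← hal2, h5, map_zero]
          rfl
        · have h5 : along (k := AlgebraicClosure K) (N := 2) (fun i => map f (T a i))
              (fun j => map f (ψ j)) (fun i => f (u (Function.update n a 0) i)) m =
              fun j => f (eval (u (Function.update n a m)) (ψ j)) := by
            funext j
            rw [hal2, h3]
          rw [h5]
          have h6 := eval_map' f (fun j => eval (u (Function.update n a m)) (ψ j)) F
          rw [h4, map_zero] at h6
          exact h6) b c hb hc hbc i j
    rw [hal2, hal2, hal2, hal2, ← map_mul, ← map_mul] at h2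
    exact hfi h2
  have hne : ∀ n, (fun j => aeval (u n) (ψ j)) ≠ 0 := by
    intro n h2
    obtain ⟨⟨j, hj⟩, -⟩ := hcur n
    apply hj
    rw [← MvPolynomial.aeval_eq_eval]
    exact congrFun h2 j
  obtain ⟨S, hS1, hS2, hS3⟩ := multi_count (N := 2) (x := fun n j => aeval (u n) (ψ j)) hp hne
    (multi_line hu' hne hline)
  refine ⟨S, hS1, hS2, fun n => ?_⟩
  obtain ⟨x, hx, h2⟩ := hS3 n
  refine ⟨x, hx, fun i j => ?_⟩
  have h3 := h2 i j
  rw [MvPolynomial.aeval_eq_eval] at h3
  exact h3

end Pool.Agent.Results.MP_10e784_ag.UniformNonlinearOrbits
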