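import Pool.Agent.Q309.TP.Fin

set_option autoImplicit false

/-!
# Uniform bounds for the number of rational points given by recurrences

The uniformity conjecture asks for a bound for the number of rational points of a curve of genus at
least `2` which depends only on the genus. We prove such a uniform bound for the number of different
points in all sequences of rational points of bounded complexity.

We consider sequences `x 0, x 1, ...` of points of the projective `n`-space over a field `L` which can
be embedded in `ℂ`, such that (`DSeq r e M x`) each of the `n + 1` sequences of homogeneous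
coordinates satisfies a nontrivial linear recurrence `∑ P_k (t m) x (m + k) j = 0`, `k ≤ r`,
for `m ≤ M`. Here the `P_k` are polynomials of degree at most `e` over `L`, and `t 0, ..., t M` are
different elements of `L` with `t (m + 1) = α t m + β`. For instance `t m = m` (P-recursive
sequences) or `t m = q ^ m` (`q`-recursive sequences). `Rec r e x` is the same for infinite
sequences.

(1) For all `n`, `D`, `r`, `e` there is ONE number `N` such that for ALL closed subsets `X` of the
projective `n`-space over `ℂ` which are defined by forms of degree at most `D` and ALL hypersurfaces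
`G = 0` of degree at most `D` one of the following holds. Either all nonconstant rational curves of
degree at most `N` on `X` lie in `G = 0`, and then, for all fields `L`, all embeddings of `L` in `ℂ`,
all `M` and all sequences `x 0, ..., x M` of `L`-rational points of `X` outside of `G = 0` of
complexity `(r, e)`, there are at most `N` different points in this sequence (`Few`). Or there is
such a curve which does not lie in `G = 0`, and then there are arbitrarily long sequences
`x 0, ..., x M` of different points of `X` outside of `G = 0` of complexity `(1, N)`.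

(2) For one `X`, the degree of `G` may be arbitrary.

(3) If `X` is Brody hyperbolic (all holomorphic maps `ℂ → X` are constant), then each infinite
sequence of `L`-rational points of `X` of complexity `(r, e)` has at most `N` different points, where
`N` depends only on `n`, `D`, `r`, `e`.

(4) For all `D ≥ 3`, `r`, `e` there is `N` such that for ALL smooth plane curves `F = 0` of degree `D`
(this is a family of curves of genus `(D - 1) (D - 2) / 2`), all fields `L` and all embeddings of
`L` in `ℂ`, each infinite sequence of complexity `(r, e)` of `L`-rational points of the curve has at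
most `N` different points.
-/

namespace Pool.Agent.Results.MP_10e784_ag.UniformRecurrences

open MvPolynomial Pool.Agent.Q1.SL Pool.Agent.Q309.DU Pool.Agent.Q309.TP
open Pool.Agent.TH143.EL (HolMap)
open scoped LinearAlgebra.Projectivization

theorem result :
    (∀ n D r e : ℕ, ∃ N : ℕ, ∀ S : Set (MvPolynomial (Fin (n + 1)) ℂ),
      (∀ F ∈ S, ∃ e, e ≤ D ∧ F.IsHomogeneous e) → ∀ G : MvPolynomial (Fin (n + 1)) ℂ,
        (∃ e, e ≤ D ∧ G.IsHomogeneous e) →
        (RatIn S G N ∧ ∀ (L : Type) [Field L] (τ : L →+* ℂ) (M : ℕ) (x : ℕ → Fin (n + 1) → L),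
          DSeq r e M x → (∀ m ≤ M, (∀ F ∈ S, eval (fun j => τ (x m j)) F = 0) ∧
            eval (fun j => τ (x m j)) G ≠ 0) → Few N M x) ∨
        (¬ RatIn S G N ∧ ∀ M, ∃ x : ℕ → Fin (n + 1) → ℂ, DSeq 1 N M x ∧ Diff M x ∧
          ∀ m ≤ M, (∀ F ∈ S, eval (x m) F = 0) ∧ eval (x m) G ≠ 0)) ∧
    (∀ (n : ℕ) (S : Set (MvPolynomial (Fin (n + 1)) ℂ)), (∀ F ∈ S, ∃ e, F.IsHomogeneous e) →
      ∀ r e : ℕ, ∃ N : ℕ, ∀ G : MvPolynomial (Fin (n + 1)) ℂ, (∃ e, G.IsHomogeneous e) →
        RatIn S G N → ∀ (L : Type) [Field L] (τ : L →+* ℂ) (M : ℕ) (x : ℕ → Fin (n + 1) → L),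
          DSeq r e M x → (∀ m ≤ M, (∀ F ∈ S, eval (fun j => τ (x m j)) F = 0) ∧
            eval (fun j => τ (x m j)) G ≠ 0) → Few N M x) ∧
    (∀ n D r e : ℕ, ∃ N : ℕ, ∀ S : Set (MvPolynomial (Fin (n + 1)) ℂ),
      (∀ F ∈ S, ∃ e, e ≤ D ∧ F.IsHomogeneous e) →
      (∀ f : ℂ → ℙ ℂ (Fin (n + 1) → ℂ), HolMap f → (∀ z, ∀ F ∈ S, eval (f z).rep F = 0) →
        ∀ z w, f z = f w) →
      ∀ (L : Type) [Field L] (τ : L →+* ℂ) (x : ℕ → Fin (n + 1) → L) (hx : ∀ m, x m ≠ 0),
        Rec r e x → (∀ m, ∀ F ∈ S, eval (fun j => τ (x m j)) F = 0) →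
          (Set.range fun m => Projectivization.mk L (x m) (hx m)).encard ≤ N) ∧
    (∀ D r e : ℕ, 3 ≤ D → ∃ N : ℕ, ∀ F : MvPolynomial (Fin 3) ℂ, F.IsHomogeneous D → Smooth F →
      ∀ (L : Type) [Field L] (τ : L →+* ℂ) (x : ℕ → Fin 3 → L) (hx : ∀ m, x m ≠ 0),
        Rec (n := 2) r e x → (∀ m, eval (fun j => τ (x m j)) F = 0) →
          (Set.range fun m => Projectivization.mk L (x m) (hx m)).encard ≤ N) := by
  refine ⟨dich_uniform, fun n S hS r e => ?_, fun n D r e => ?_, fun D r e hD => ?_⟩
  · obtain ⟨N, hN⟩ := pts_special S hS r e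
    refine ⟨N, fun G hG hrat L _ τ M x hx hX => ?_⟩
    obtain ⟨t, ht⟩ := wseq_of hx τ fun m hm F hF => (hX m hm).1 F hF
    exact few_of τ (hN G hG hrat M t _ ht fun m hm => (hX m hm).2)
  · obtain ⟨N, hN⟩ := pts_uniform n D r e
    refine ⟨N, fun S hS hyp L _ τ x hx hrec hX => encard_le hx fun M => ?_⟩
    obtain ⟨t, ht⟩ := wseq_of (hrec.dseq hx M) τ fun m _ F hF => hX m F hF
    refine few_of τ (hN S hS 1 ⟨0, Nat.zero_le _, isHomogeneous_one _ _⟩
      (brody (fun F hF => ?_) hyp 1 N) M t _ ht fun m _ => ?_)
    · obtain ⟨e, -, he⟩ := hS F hF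
      exact ⟨e, he⟩
    · rw [map_one]
      exact one_ne_zero
  · obtain ⟨N, hN⟩ := pts_uniform 2 D r e
    refine ⟨N, fun F hF hsm L _ τ x hx hrec hX => encard_le (n := 2) hx fun M => ?_⟩
    obtain ⟨t, ht⟩ := wseq_of (S := {F}) (hrec.dseq hx M) τ fun m _ G hG => by
      rw [Set.mem_singleton_iff.1 hG]
      exact hX m
    refine few_of τ (hN {F} (fun G hG => ?_) 1 ⟨0, Nat.zero_le _, isHomogeneous_one _ _⟩
      (smooth_ratIn hF hD hsm 1 N) M t _ ht fun m _ => ?_)
    · rw [Set.mem_singleton_iff.1 hG]
      exact ⟨D, le_rfl, hF⟩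
    · rw [map_one]
      exact one_ne_zero

end Pool.Agent.Results.MP_10e784_ag.UniformRecurrences
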